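import Pool.Agent.TZ.Defs
import Pool.Agent.TZ.Fin

set_option autoImplicit false

/-!
The topological graded ideal zeta function of the free nilpotent Lie ring of class `c ≤ 4` on
`d ≥ 2` generators has a pole of order exactly `c` at `s = 0`, with the expected leading
coefficient. All definitions used in the statement are in `Pool.Agent.TZ.Defs`.
-/

namespace Pool.Agent.Results.MP_d790b5_al.ClassAtMostFour

open Pool.Agent.TZ

/-- Let `1 ≤ c ≤ 4` and `d ≥ 2`, and let `z` be the topological graded ideal zeta function of the
free nilpotent Lie ring of class `c` on `d` generators, computed from any Denef type formula `F` for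
the local graded ideal zeta functions. Then `s ^ c * z s` tends, as `s → 0`, to
`(-1) ^ (r - c) * ∏_{i ≤ c} W(i) / (R_i * (W(i) - 1)!)`, and this value is not zero. -/
theorem result {c d : ℕ} (hd : 2 ≤ d) (hc : 1 ≤ c) (hc4 : c ≤ 4) (F : DenefFormula c d)
    (z : ℝ → ℝ) (hz : F.IsTopological (wittSum d c) z) :
    Filter.Tendsto (fun s : ℝ => s ^ c * z s) (nhdsWithin 0 {0}ᶜ) (nhds (leadingValue c d)) ∧
      leadingValue c d ≠ 0 :=
  main hd hc hc4 F z hz

end Pool.Agent.Results.MP_d790b5_al.ClassAtMostFour
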