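import Pool.Agent.TZ.Defs
import Pool.Agent.TZ8.LEAD8

set_option autoImplicit false

/-!
The conjectured leading coefficient at `s = 0` of the topological graded ideal zeta function of the
free nilpotent Lie ring of class `c` on `d` generators is wrong for `c = 8`, `d = 2`. All
definitions used in the statement are in `Pool.Agent.TZ.Defs`.
-/

namespace Pool.Agent.Results.MP_d790b5_al.ClassEightFalse

open Pool.Agent.TZ

/-- Let `z` be the topological graded ideal zeta function of the free nilpotent Lie ring of class
`8` on `2` generators, computed from any Denef type formula `F` for the local graded ideal zeta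
functions. Then `s ^ 8 * z s` tends, as `s → 0`, to `16 / 15` times the conjectured value
`(-1) ^ (r - 8) * ∏_{i ≤ 8} W(i) / (R_i * (W(i) - 1)!)`, which is not zero; so it does not tend to
the conjectured value. -/
theorem result (F : DenefFormula 8 2) (z : ℝ → ℝ) (hz : F.IsTopological (wittSum 2 8) z) :
    Filter.Tendsto (fun s : ℝ => s ^ 8 * z s) (nhdsWithin 0 {0}ᶜ)
        (nhds (16 / 15 * leadingValue 8 2)) ∧
      leadingValue 8 2 ≠ 0 ∧
      ¬ Filter.Tendsto (fun s : ℝ => s ^ 8 * z s) (nhdsWithin 0 {0}ᶜ)
        (nhds (leadingValue 8 2)) := by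
  obtain ⟨h1, h2⟩ := Pool.Agent.TZ8.main8 (@Pool.Agent.TZ8.hloc) F z hz
  refine ⟨h1, h2, fun h3 => h2 ?_⟩
  have h4 := tendsto_nhds_unique h1 h3
  linarith

end Pool.Agent.Results.MP_d790b5_al.ClassEightFalse
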