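import Pool.Agent.TZ8.LEAD8
import Pool.Agent.TZ8.Loc8

set_option autoImplicit false

/-!
The local graded ideal zeta functions of the free nilpotent Lie ring of class `8` on `2` generators
over the unramified extensions of the `p`-adic integers, `p ≥ 11`: the leading coefficient at
`s = 0` is `16 / 15` times the expected one. All definitions used in the statement are in
`Pool.Agent.TZ.Defs`.
-/

namespace Pool.Agent.Results.MP_d790b5_al.ClassEightLocal

open Pool.Agent.TZ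

/-- Let `p ≥ 11` be a prime, `f ≥ 1`, `q = p ^ f`, and let `Z(t)` be the generating function of the
numbers of graded ideals of index `q ^ n` of the free nilpotent Lie algebra of class `8` on `2`
generators over the unramified extension of degree `f` of the `p`-adic integers. Put
`L_q = ∏_{i ≤ 8} W(i) / (R_i ∏_{1 ≤ j < W(i)} (1 - q ^ j))`. Then `Z(t) (1 - t) ^ 8 A(t) = B(t)` for
integral power series `A`, `B` whose coefficients have the `p`-adic sums `a ≠ 0` and
`(16 / 15) L_q a`. If `Z` is a rational function of `t`, then it has a pole of order exactly `8` at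
`t = 1`, with leading coefficient `(16 / 15) L_q`. -/
theorem result (p f : ℕ) [Fact p.Prime] (hp : 11 ≤ p) (hf : 1 ≤ f) :
    (∃ (A B : PowerSeries ℤ) (a : ℚ_[p]), a ≠ 0 ∧
      HasSum (fun n : ℕ => ((PowerSeries.coeff n A : ℤ) : ℚ_[p])) a ∧
      HasSum (fun n : ℕ => ((PowerSeries.coeff n B : ℤ) : ℚ_[p]))
        (16 / 15 * (∏ i ∈ Finset.Icc 1 8, (wittFn 2 i : ℚ_[p]) / ((wittSum 2 i : ℚ_[p]) *
          ∏ j ∈ Finset.Ico 1 (wittFn 2 i), (1 - ((p ^ f : ℕ) : ℚ_[p]) ^ j))) * a) ∧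
      PowerSeries.mk (fun n => (idealCount 8 2 p f n : ℤ)) *
        ((1 - PowerSeries.X) ^ 8 * A) = B) ∧
    ∀ P D : Polynomial ℤ, D ≠ 0 →
      PowerSeries.mk (fun n => (idealCount 8 2 p f n : ℤ)) * (D : PowerSeries ℤ) =
        (P : PowerSeries ℤ) →
      ∃ (k : ℕ) (P' D' : Polynomial ℤ), P = (1 - Polynomial.X) ^ k * P' ∧
        D = (1 - Polynomial.X) ^ (k + 8) * D' ∧ D'.eval 1 ≠ 0 ∧
        ((P'.eval 1 : ℤ) : ℚ) / ((D'.eval 1 : ℤ) : ℚ) =
          16 / 15 * ∏ i ∈ Finset.Icc 1 8, (wittFn 2 i : ℚ) / ((wittSum 2 i : ℚ) *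
            ∏ j ∈ Finset.Ico 1 (wittFn 2 i), (1 - ((p ^ f : ℕ) : ℚ) ^ j)) :=
  ⟨Pool.Agent.TZ8.local8 (Pool.Agent.TZ8.hloc p f hp hf), fun P D hD hPD =>
    Pool.Agent.TZ8.local8_rat hf (Pool.Agent.TZ8.hloc p f hp hf) P D hD hPD⟩

end Pool.Agent.Results.MP_d790b5_al.ClassEightLocal
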